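import Pool.Agent.Helper58.Qip.Stmts

/-!
# Packet F: the L2 projection
-/

set_option autoImplicit false
open MeasureTheory ProbabilityTheory Filter Topology
open scoped ENNReal NNReal

namespace Pool.Agent.Helper1.Qip
open Pool.Agent.Helper58.Qip

section

variable {Ω D : Type} [MeasurableSpace Ω] [Fintype D] {P : Measure Ω}

/-- The Hilbert space of square integrable fields. -/
abbrev HF (D : Type) [Fintype D] {Ω : Type} [MeasurableSpace Ω] (P : Measure Ω) : Type :=
  PiLp 2 (fun _ : D => Lp ℝ 2 P)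

/-- Gradients of bounded measurable functions. -/
noncomputable def gradients (S : RevSys Ω D P) : Submodule ℝ (HF D P) where
  carrier := {F | ∃ g : Ω → ℝ, Measurable g ∧ (∃ C, ∀ ω, |g ω| ≤ C) ∧
    ∀ e, (F e : Ω → ℝ) =ᵐ[P] fun ω => g (S.σ e ω) - g ω}
  zero_mem' := by
    refine ⟨fun _ => 0, measurable_const, ⟨0, by simp⟩, fun e => ?_⟩
    have h : ((0 : HF D P) e : Ω → ℝ) =ᵐ[P] 0 := Lp.coeFn_zero ℝ 2 P
    filter_upwards [h] with ω hω
    rw [hω]; simp
  add_mem' := by
    rintro F G ⟨g, hg, ⟨C, hC⟩, hF⟩ ⟨g', hg', ⟨C', hC'⟩, hG⟩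
    refine ⟨fun ω => g ω + g' ω, hg.add hg', ⟨C + C', fun ω => ?_⟩, fun e => ?_⟩
    · exact (abs_add_le _ _).trans (add_le_add (hC ω) (hC' ω))
    · have h : (((F + G : HF D P)) e : Ω → ℝ) =ᵐ[P] (F e : Ω → ℝ) + (G e : Ω → ℝ) :=
        Lp.coeFn_add _ _
      filter_upwards [h, hF e, hG e] with ω h1 h2 h3
      rw [h1, Pi.add_apply, h2, h3]; ring
  smul_mem' := by
    rintro c F ⟨g, hg, ⟨C, hC⟩, hF⟩
    refine ⟨fun ω => c * g ω, hg.const_mul c, ⟨|c| * C, fun ω => ?_⟩, fun e => ?_⟩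
    · rw [abs_mul]
      exact mul_le_mul_of_nonneg_left (hC ω) (abs_nonneg c)
    · have h : (((c • F : HF D P)) e : Ω → ℝ) =ᵐ[P] c • (F e : Ω → ℝ) := Lp.coeFn_smul _ _
      filter_upwards [h, hF e] with ω h1 h2
      rw [h1, Pi.smul_apply, h2, smul_eq_mul]; ring

/-- Antisymmetric fields. -/
def antisym (S : RevSys Ω D P) : Set (HF D P) :=
  {F | ∀ e, Lp.compMeasurePreserving (S.σ e) (S.mp e) (F (S.flip e)) = - (F e)}

lemma isClosed_antisym (S : RevSys Ω D P) : IsClosed (antisym S) := by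
  have : antisym S = ⋂ e, {F : HF D P |
      Lp.compMeasurePreserving (S.σ e) (S.mp e) (F (S.flip e)) = - (F e)} := by
    ext F; simp [antisym]
  rw [this]
  apply isClosed_iInter
  intro e
  apply isClosed_eq
  · exact (Lp.isometry_compMeasurePreserving (S.mp e)).continuous.comp
      (PiLp.continuous_apply 2 _ (S.flip e))
  · exact (PiLp.continuous_apply 2 _ e).neg

lemma antisym_iff (S : RevSys Ω D P) (F : HF D P) :
    F ∈ antisym S ↔ ∀ e, ∀ᵐ ω ∂P, (F (S.flip e) : Ω → ℝ) (S.σ e ω) = - (F e : Ω → ℝ) ω := by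
  apply forall_congr'
  intro e
  rw [Lp.ext_iff]
  constructor
  · intro h
    filter_upwards [h, Lp.coeFn_compMeasurePreserving (F (S.flip e)) (S.mp e),
      Lp.coeFn_neg (F e)] with ω h1 h2 h3
    rw [h2, h3] at h1
    exact h1
  · intro h
    filter_upwards [h, Lp.coeFn_compMeasurePreserving (F (S.flip e)) (S.mp e),
      Lp.coeFn_neg (F e)] with ω h1 h2 h3
    rw [h2, h3]
    exact h1

lemma gradients_subset_antisym (S : RevSys Ω D P) : (gradients S : Set (HF D P)) ⊆ antisym S := by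
  rintro F ⟨g, hg, -, hF⟩
  rw [antisym_iff]
  intro e
  filter_upwards [(S.mp e).quasiMeasurePreserving.ae (hF (S.flip e)), hF e, S.inv e]
    with ω h1 h2 h3
  rw [h1, h2, h3]
  ring

end

theorem stmtF : StmtF := by
  intro Ω D _ _ _ P _ S Φ hΦm hΦi hΦa
  have hmem : ∀ e, MemLp (fun ω => Φ ω e) 2 P := fun e =>
    (memLp_two_iff_integrable_sq (hΦm e).aestronglyMeasurable).mpr (hΦi e)
  set Φh : HF D P := WithLp.toLp 2 (fun e => (hmem e).toLp _) with hΦh
  have hΦc : ∀ e, (Φh e : Ω → ℝ) =ᵐ[P] fun ω => Φ ω e := fun e => (hmem e).coeFn_toLp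
  set K : Submodule ℝ (HF D P) := (gradients S).topologicalClosure with hK
  have : CompleteSpace K := (gradients S).isClosed_topologicalClosure.completeSpace_coe
  set Gh : HF D P := K.starProjection Φh with hGh
  have hGK : Gh ∈ K := K.starProjection_apply_mem Φh
  set Ψh : HF D P := Φh - Gh with hΨh
  have hΨo : Ψh ∈ Kᗮ := K.sub_starProjection_mem_orthogonal Φh
  have hΦA : Φh ∈ antisym S := by
    rw [antisym_iff]
    intro e
    filter_upwards [(S.mp e).quasiMeasurePreserving.ae (hΦc (S.flip e)), hΦc e, hΦa]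
      with ω h1 h2 h3
    rw [h1, h2, h3 e]
  have hGA : Gh ∈ antisym S := by
    have h1 : (K : Set (HF D P)) ⊆ antisym S := by
      rw [hK, Submodule.topologicalClosure_coe]
      exact closure_minimal (gradients_subset_antisym S) (isClosed_antisym S)
    exact h1 hGK
  have hΨA : Ψh ∈ antisym S := by
    intro e
    have h1 := hΦA e
    have h2 := hGA e
    have e1 : Ψh (S.flip e) = Φh (S.flip e) - Gh (S.flip e) := rfl
    have e2 : Ψh e = Φh e - Gh e := rfl
    rw [e1, e2, map_sub, h1, h2]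
    abel
  have hΨa := (antisym_iff S Ψh).mp hΨA
  have hΨL2 : ∀ e, MemLp (Ψh e : Ω → ℝ) 2 P := fun e => Lp.memLp _
  have hΨint : ∀ e, Integrable (Ψh e : Ω → ℝ) P := fun e =>
    (hΨL2 e).integrable (by norm_num)
  refine ⟨fun ω e => (Ψh e : Ω → ℝ) ω, fun e => (Lp.stronglyMeasurable _).measurable,
    fun e => (hΨL2 e).integrable_sq, ae_all_iff.mpr hΨa, ?_, ?_⟩
  · -- divergence free
    have hgrad : ∀ g : Ω → ℝ, Measurable g → (∃ C, ∀ ω, |g ω| ≤ C) →
        ∫ ω, (∑ e, (Ψh e : Ω → ℝ) ω) * g ω ∂P = 0 := by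
      intro g hg hgC
      obtain ⟨C, hC⟩ := hgC
      have hgm : ∀ e, MemLp (fun ω => g (S.σ e ω) - g ω) 2 P := by
        intro e
        apply MemLp.of_bound (((hg.comp (S.mp e).measurable).sub hg).aestronglyMeasurable)
          (C + C)
        filter_upwards with ω
        rw [Real.norm_eq_abs]
        exact (abs_sub _ _).trans (add_le_add (hC _) (hC _))
      have hgi : ∀ e, Integrable (fun ω => (Ψh e : Ω → ℝ) ω * g ω) P := by
        intro e
        apply (hΨint e).mul_bdd (c := C) hg.aestronglyMeasurable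
        filter_upwards with ω
        rw [Real.norm_eq_abs]; exact hC ω
      have hgi' : ∀ e, Integrable (fun ω => (Ψh e : Ω → ℝ) ω * g (S.σ e ω)) P := by
        intro e
        apply (hΨint e).mul_bdd (c := C) (hg.comp (S.mp e).measurable).aestronglyMeasurable
        filter_upwards with ω
        rw [Real.norm_eq_abs]; exact hC _
      set F : HF D P := WithLp.toLp 2 (fun e => (hgm e).toLp _) with hF
      have hFc : ∀ e, (F e : Ω → ℝ) =ᵐ[P] fun ω => g (S.σ e ω) - g ω := fun e =>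
        (hgm e).coeFn_toLp
      have hFK : F ∈ K := (gradients S).le_topologicalClosure ⟨g, hg, ⟨C, hC⟩, hFc⟩
      have h1 : inner ℝ F Ψh = (0 : ℝ) := hΨo F hFK
      rw [PiLp.inner_apply] at h1
      have h2 : ∀ e, inner ℝ (F e) (Ψh e)
          = ∫ ω, (Ψh e : Ω → ℝ) ω * g (S.σ e ω) ∂P - ∫ ω, (Ψh e : Ω → ℝ) ω * g ω ∂P := by
        intro e
        rw [L2.inner_def, ← integral_sub (hgi' e) (hgi e)]
        apply integral_congr_ae
        filter_upwards [hFc e] with ω hω
        rw [hω]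
        simp
        ring
      have h3 : ∀ e, ∫ ω, (Ψh e : Ω → ℝ) ω * g (S.σ e ω) ∂P
          = - ∫ ω, (Ψh (S.flip e) : Ω → ℝ) ω * g ω ∂P := by
        intro e
        have h4 : ∫ ω, (Ψh e : Ω → ℝ) ω * g (S.σ e ω) ∂P
            = ∫ ω, (Ψh e : Ω → ℝ) (S.σ (S.flip e) ω) * g (S.σ e (S.σ (S.flip e) ω)) ∂P := by
          have h5 : ∀ Fn : Ω → ℝ, Measurable Fn →
              ∫ ω, Fn ω ∂P = ∫ ω, Fn (S.σ (S.flip e) ω) ∂P := by
            intro Fn hFn
            rw [← integral_map (S.mp (S.flip e)).measurable.aemeasurable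
              hFn.aestronglyMeasurable, (S.mp (S.flip e)).map_eq]
          exact h5 (fun ω => (Ψh e : Ω → ℝ) ω * g (S.σ e ω))
            ((Lp.stronglyMeasurable _).measurable.mul (hg.comp (S.mp e).measurable))
        rw [h4, ← integral_neg]
        apply integral_congr_ae
        have h6 := hΨa (S.flip e)
        have h7 := S.inv (S.flip e)
        rw [S.flip_flip] at h6 h7
        filter_upwards [h6, h7] with ω h8 h9
        rw [h8, h9]
        ring
      have h4 : ∑ e, ∫ ω, (Ψh (S.flip e) : Ω → ℝ) ω * g ω ∂P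
          = ∑ e, ∫ ω, (Ψh e : Ω → ℝ) ω * g ω ∂P :=
        (Function.Involutive.bijective S.flip_flip).sum_comp
          (fun e => ∫ ω, (Ψh e : Ω → ℝ) ω * g ω ∂P)
      have h5 : ∫ ω, (∑ e, (Ψh e : Ω → ℝ) ω) * g ω ∂P
          = ∑ e, ∫ ω, (Ψh e : Ω → ℝ) ω * g ω ∂P := by
        simp_rw [Finset.sum_mul]
        exact integral_finsetSum _ (fun e _ => hgi e)
      rw [h5]
      simp_rw [h2, h3] at h1
      rw [Finset.sum_sub_distrib, Finset.sum_neg_distrib, h4] at h1
      linarith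
    have hint : Integrable (fun ω => ∑ e, (Ψh e : Ω → ℝ) ω) P :=
      integrable_finsetSum _ (fun e _ => hΨint e)
    have hz : (fun ω => ∑ e, (Ψh e : Ω → ℝ) ω) =ᵐ[P] 0 := by
      apply Integrable.ae_eq_zero_of_forall_setIntegral_eq_zero hint
      intro s hs _
      have h1 := hgrad (s.indicator (fun _ => (1 : ℝ))) (measurable_const.indicator hs)
        ⟨1, fun ω => by by_cases h : ω ∈ s <;> simp [h]⟩
      rw [← integral_indicator hs, ← h1]
      congr 1
      funext ω
      by_cases h : ω ∈ s <;> simp [h]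
    filter_upwards [hz] with ω hω
    simpa using hω
  · -- approximation
    intro ε hε
    have h1 : Gh ∈ closure (gradients S : Set (HF D P)) := by
      rw [← Submodule.topologicalClosure_coe]; exact hGK
    obtain ⟨F, hF, hdist⟩ := Metric.mem_closure_iff.mp h1 (Real.sqrt ε) (Real.sqrt_pos.mpr hε)
    obtain ⟨g, hg, hgC, hFc⟩ := hF
    refine ⟨g, hg, hgC, ?_⟩
    have hnorm : ‖Gh - F‖ ^ 2 ≤ ε := by
      rw [dist_eq_norm] at hdist
      have := pow_le_pow_left₀ (norm_nonneg _) hdist.le 2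
      rwa [Real.sq_sqrt hε.le] at this
    have hsq : ‖Gh - F‖ ^ 2 = ∑ e, ∫ ω, ((Gh - F) e : Ω → ℝ) ω ^ 2 ∂P := by
      rw [PiLp.norm_sq_eq_of_L2]
      apply Finset.sum_congr rfl
      intro e _
      rw [← real_inner_self_eq_norm_sq, L2.inner_def]
      apply integral_congr_ae
      filter_upwards with ω
      simp
    have hdiff : ∀ e, ((Gh - F) e : Ω → ℝ) =ᵐ[P]
        fun ω => Φ ω e - (Ψh e : Ω → ℝ) ω - (g (S.σ e ω) - g ω) := by
      intro e
      have e1 : (Gh - F) e = Φh e - Ψh e - F e := by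
        have : Gh = Φh - Ψh := by rw [hΨh]; abel
        rw [this]; rfl
      rw [e1]
      filter_upwards [Lp.coeFn_sub (Φh e - Ψh e) (F e), Lp.coeFn_sub (Φh e) (Ψh e), hΦc e,
        hFc e] with ω h2 h3 h4 h5
      rw [h2, Pi.sub_apply, h3, Pi.sub_apply, h4, h5]
    have hint : ∀ e, Integrable (fun ω => ((Gh - F) e : Ω → ℝ) ω ^ 2) P := fun e =>
      (Lp.memLp ((Gh - F) e)).integrable_sq
    have hcard : (1 : ℝ) ≤ Fintype.card D := by
      have : 0 < Fintype.card D := Fintype.card_pos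
      exact_mod_cast this
    have h6 : ∫ ω, energy (fun ω e => Φ ω e - (Ψh e : Ω → ℝ) ω - (g (S.σ e ω) - g ω)) ω ∂P
        = (∑ e, ∫ ω, ((Gh - F) e : Ω → ℝ) ω ^ 2 ∂P) / (Fintype.card D : ℝ) := by
      rw [← integral_finsetSum _ (fun e _ => hint e), ← integral_div]
      apply integral_congr_ae
      filter_upwards [ae_all_iff.mpr hdiff] with ω hω
      unfold energy
      congr 1
      apply Finset.sum_congr rfl
      intro e _
      rw [hω e]
    rw [h6, ← hsq]
    calc ‖Gh - F‖ ^ 2 / (Fintype.card D : ℝ) ≤ ‖Gh - F‖ ^ 2 / 1 := by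
          apply div_le_div_of_nonneg_left (by positivity) one_pos hcard
      _ ≤ ε := by rw [div_one]; exact hnorm

end Pool.Agent.Helper1.Qip
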